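import Pool.Agent.Q39.NT.Ident

set_option autoImplicit false

/-!
# Admissible tuples from coprime pairs
-/

namespace Pool.Agent.Q39.NT

open Finset Polynomial

/-- admissible tuples -/
def Adm {n : ℕ} (x : Fin n → ℤ) : Prop :=
  univ.gcd x = 1 ∧ ∑ i, x i = 0 ∧
    ∀ I : Finset (Fin n), I.Nonempty → I ≠ univ → ∑ i ∈ I, x i ≠ 0

/-- the radical of the product -/
def rd {n : ℕ} (x : Fin n → ℤ) : ℕ := ∏ p ∈ (∏ i, x i).natAbs.primeFactors, p

lemma gcd_one {n : ℕ} {x : Fin n → ℤ} (h : ∀ d : ℤ, (∀ i, d ∣ x i) → IsUnit d) :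
    univ.gcd x = 1 := by
  have h1 := h (univ.gcd x) fun i => Finset.gcd_dvd (mem_univ i)
  rw [← Finset.normalize_gcd (s := univ) (f := x)]
  exact normalize_eq_one.2 h1

lemma Adm.ne_zero {n : ℕ} (hn : 2 ≤ n) {x : Fin n → ℤ} (hx : Adm x) (i : Fin n) : x i ≠ 0 := by
  have h := hx.2.2 {i} (singleton_nonempty i) (by
    intro h
    have h1 := congrArg Finset.card h
    rw [card_singleton, card_univ, Fintype.card_fin] at h1
    omega)
  simpa using h

lemma rd_pos {n : ℕ} (x : Fin n → ℤ) : 0 < rd x :=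
  prod_pos fun _ hp => (Nat.prime_of_mem_primeFactors hp).pos

/-- If every prime divisor of a coordinate of `y` divides `a` or `b`, then `rd y ≤ rad a * b`. -/
lemma rd_le {n : ℕ} (y : Fin n → ℤ) {a b : ℕ} (ha : a ≠ 0) (hb : b ≠ 0) 
    (h : ∀ i, ∀ p : ℕ, p.Prime → (p : ℤ) ∣ y i → p ∣ a ∨ p ∣ b) :
    rd y ≤ (∏ p ∈ a.primeFactors, p) * b := by
  have h1 : (∏ i, y i).natAbs.primeFactors ⊆ a.primeFactors ∪ b.primeFactors := by
    intro p hp
    rw [Nat.mem_primeFactors] at hp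
    obtain ⟨hp1, hp2, -⟩ := hp
    have h2 : (p : ℤ) ∣ ∏ i, y i := Int.natCast_dvd.2 hp2
    have h3 := (Prime.dvd_finsetProd_iff (Nat.prime_iff_prime_int.1 hp1) _).1 h2
    obtain ⟨i, -, hi⟩ := h3
    rw [mem_union, Nat.mem_primeFactors, Nat.mem_primeFactors]
    rcases h i p hp1 hi with h4 | h4
    · exact Or.inl ⟨hp1, h4, ha⟩
    · exact Or.inr ⟨hp1, h4, hb⟩
  have hpos : ∀ s : Finset ℕ, s ⊆ a.primeFactors ∪ b.primeFactors → 0 < ∏ p ∈ s, p := by
    intro s hs
    refine prod_pos fun p hp => ?_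
    have := hs hp
    rw [mem_union, Nat.mem_primeFactors, Nat.mem_primeFactors] at this
    rcases this with h | h
    · exact h.1.pos
    · exact h.1.pos
  calc rd y ≤ ∏ p ∈ a.primeFactors ∪ b.primeFactors, p := by
        unfold rd
        refine Finset.prod_le_prod_of_subset_of_one_le' h1 fun p hp _ => ?_
        rw [mem_union, Nat.mem_primeFactors, Nat.mem_primeFactors] at hp
        rcases hp with h | h
        · exact h.1.one_lt.le
        · exact h.1.one_lt.le
    _ ≤ (∏ p ∈ a.primeFactors ∪ b.primeFactors, p) *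
          ∏ p ∈ a.primeFactors ∩ b.primeFactors, p :=
        Nat.le_mul_of_pos_right _ (hpos _ (inter_subset_left.trans subset_union_left))
    _ = (∏ p ∈ a.primeFactors, p) * ∏ p ∈ b.primeFactors, p := prod_union_inter
    _ ≤ (∏ p ∈ a.primeFactors, p) * b := Nat.mul_le_mul_left _
        (Nat.le_of_dvd (Nat.pos_of_ne_zero hb) (Nat.prod_primeFactors_dvd b))

/-! ### From `n + 1` to `n` -/

/-- the tuple `(x_{i₀}, x_{i₀}, 2 x_i (i ≠ i₀))` -/
def dbl {n : ℕ} (x : Fin n → ℤ) (i₀ : Fin n) : Fin (n + 1) → ℤ :=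
  Fin.cons (x i₀) fun i => if i = i₀ then x i₀ else 2 * x i

lemma dbl_adm {n : ℕ} {x : Fin n → ℤ} (hx : Adm x) {i₀ : Fin n} (hi : ¬ 2 ∣ x i₀) :
    Adm (dbl x i₀) := by
  classical
  have hsum : ∀ I : Finset (Fin n), i₀ ∈ I →
      x i₀ + ∑ i ∈ I, (if i = i₀ then x i₀ else 2 * x i) = 2 * ∑ i ∈ I, x i := by
    intro I hI
    rw [← add_sum_erase I _ hI, ← add_sum_erase I x hI, if_pos rfl, mul_add, mul_sum,
      sum_congr rfl (fun i hi => if_neg (ne_of_mem_erase hi))]
    ring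
  have hsum' : ∀ I : Finset (Fin n), i₀ ∉ I →
      ∑ i ∈ I, (if i = i₀ then x i₀ else 2 * x i) = 2 * ∑ i ∈ I, x i := by
    intro I hI
    rw [mul_sum]
    refine sum_congr rfl fun i hi' => if_neg fun h => hI ?_
    rwa [← h]
  refine ⟨gcd_one fun d hd => ?_, ?_, fun J hJ hJ2 => ?_⟩
  · -- `d` divides the odd number `x i₀`, so it divides all `x i`
    have h0 : d ∣ x i₀ := by simpa [dbl] using hd 0
    have hcop : IsCoprime d 2 := by
      rw [isCoprime_comm]
      rw [Prime.coprime_iff_not_dvd Int.prime_two]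
      exact fun h => hi (h.trans h0)
    have h1 : ∀ i, d ∣ x i := by
      intro i
      by_cases h : i = i₀
      · rw [h]; exact h0
      · have h2 := hd i.succ
        simp only [dbl, Fin.cons_succ, if_neg h] at h2
        exact hcop.dvd_of_dvd_mul_left h2
    have h2 : d ∣ univ.gcd x := Finset.dvd_gcd fun i _ => h1 i
    rw [hx.1] at h2
    exact isUnit_of_dvd_one h2
  · rw [Fin.sum_univ_succ]
    simp only [dbl, Fin.cons_zero, Fin.cons_succ]
    rw [hsum univ (mem_univ _), hx.2.1, mul_zero]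
  · set I : Finset (Fin n) := univ.filter fun i => i.succ ∈ J with hI
    have hJsum : ∑ i ∈ J, dbl x i₀ i = (if (0 : Fin (n + 1)) ∈ J then x i₀ else 0) +
        ∑ i ∈ I, (if i = i₀ then x i₀ else 2 * x i) := by
      have h1 : ∑ i ∈ J, dbl x i₀ i = ∑ i, if i ∈ J then dbl x i₀ i else 0 := by
        rw [← sum_filter]
        congr 1
        ext i
        simp
      rw [h1, Fin.sum_univ_succ, hI, sum_filter]
      simp only [dbl, Fin.cons_zero, Fin.cons_succ]
    rw [hJsum]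
    have hIuniv : (0 : Fin (n + 1)) ∈ J → I ≠ univ := by
      intro h0 h
      apply hJ2
      ext i
      refine ⟨fun _ => mem_univ _, fun _ => ?_⟩
      refine Fin.cases h0 (fun i => ?_) i
      have : i ∈ I := by rw [h]; exact mem_univ _
      exact (mem_filter.1 this).2
    by_cases h0 : (0 : Fin (n + 1)) ∈ J
    · rw [if_pos h0]
      by_cases h1 : i₀ ∈ I
      · rw [hsum I h1]
        exact mul_ne_zero two_ne_zero (hx.2.2 I ⟨_, h1⟩ (hIuniv h0))
      · rw [hsum' I h1]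
        intro h2
        apply hi
        exact ⟨-∑ i ∈ I, x i, by linarith⟩
    · rw [if_neg h0, zero_add]
      by_cases h1 : i₀ ∈ I
      · intro h2
        have h3 := hsum I h1
        rw [h2, add_zero] at h3
        exact hi ⟨_, h3⟩
      · rw [hsum' I h1]
        refine mul_ne_zero two_ne_zero (hx.2.2 I ?_ fun h => h1 (by rw [h]; exact mem_univ _))
        obtain ⟨j, hj⟩ := hJ
        rcases Fin.eq_zero_or_eq_succ j with rfl | ⟨i, rfl⟩
        · exact absurd hj h0
        · exact ⟨i, by rw [hI, mem_filter]; exact ⟨mem_univ _, hj⟩⟩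

lemma exists_odd {n : ℕ} {x : Fin n → ℤ} (hx : Adm x) : ∃ i, ¬ 2 ∣ x i := by
  by_contra h
  push Not at h
  have h2 : (2 : ℤ) ∣ univ.gcd x := Finset.dvd_gcd fun i _ => h i
  rw [hx.1] at h2
  norm_num at h2

lemma two_le_rd {n : ℕ} (hn : 3 ≤ n) {x : Fin n → ℤ} (hx : Adm x) : 2 ≤ rd x := by
  have hne : ∀ i, x i ≠ 0 := hx.ne_zero (by omega)
  -- some coordinate is not a unit
  have h1 : ∃ i, (x i).natAbs ≠ 1 := by
    by_contra h
    push Not at h
    have h2 : ∀ i, x i = 1 ∨ x i = -1 := fun i => Int.natAbs_eq_iff.1 (h i) |>.imp (by simp) (by simp)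
    have h3 : ∃ i j, x i = 1 ∧ x j = -1 := by
      by_contra h4
      push Not at h4
      have h0 : 0 < n := by omega
      rcases h2 ⟨0, h0⟩ with h5 | h5
      · have h6 : ∀ j, x j = 1 := fun j => (h2 j).resolve_right (h4 _ j h5)
        have h7 := hx.2.1
        rw [sum_congr rfl fun i _ => h6 i] at h7
        simp at h7
        omega
      · have h6 : ∀ j, x j = -1 := fun j => (h2 j).resolve_left fun h8 => h4 j _ h8 h5
        have h7 := hx.2.1
        rw [sum_congr rfl fun i _ => h6 i] at h7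
        simp at h7
        omega
    obtain ⟨i, j, hi, hj⟩ := h3
    have hij : i ≠ j := by rintro rfl; rw [hi] at hj; norm_num at hj
    refine hx.2.2 {i, j} ⟨i, by simp⟩ ?_ ?_
    · intro h4
      have h5 := congrArg Finset.card h4
      rw [card_pair hij, card_univ, Fintype.card_fin] at h5
      omega
    · rw [sum_pair hij, hi, hj]; norm_num
  obtain ⟨i, hi⟩ := h1
  obtain ⟨p, hp, hpd⟩ := Nat.exists_prime_and_dvd hi
  have h2 : p ∈ (∏ i, x i).natAbs.primeFactors := by
    rw [Nat.mem_primeFactors]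
    refine ⟨hp, ?_, ?_⟩
    · rw [← Int.natCast_dvd]
      exact (Int.natCast_dvd.2 hpd).trans (dvd_prod_of_mem _ (mem_univ i))
    · rw [Int.natAbs_ne_zero]
      exact prod_ne_zero_iff.2 fun i _ => hne i
  unfold rd
  exact hp.two_le.trans (Nat.le_of_dvd (rd_pos x) (dvd_prod_of_mem _ h2))

/-- the exponents for `n + 1` give exponents for `n` -/
theorem descend {n : ℕ} (hn : 3 ≤ n) {M : ℝ}
    (h : ∀ x : Fin (n + 1) → ℤ, Adm x → ∀ j, (|x j| : ℝ) ≤ (rd x : ℝ) ^ M) :
    ∀ x : Fin n → ℤ, Adm x → ∀ j, (|x j| : ℝ) ≤ (rd x : ℝ) ^ (2 * max M 0) := by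
  intro x hx j
  obtain ⟨i₀, hi⟩ := exists_odd hx
  have h1 := h _ (dbl_adm hx hi) j.succ
  have h2 : rd (dbl x i₀) ≤ rd x * 2 := by
    have hne := hx.ne_zero (by omega)
    have := rd_le (dbl x i₀) (a := (∏ i, x i).natAbs) (b := 2)
      (Int.natAbs_ne_zero.2 (prod_ne_zero_iff.2 fun i _ => hne i)) (by norm_num)
      (fun i p hp hd => ?_)
    · exact this
    · rcases Fin.eq_zero_or_eq_succ i with rfl | ⟨i, rfl⟩
      · left
        simp only [dbl, Fin.cons_zero] at hd
        exact Int.natCast_dvd.1 (hd.trans (dvd_prod_of_mem _ (mem_univ i₀)))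
      · simp only [dbl, Fin.cons_succ] at hd
        split_ifs at hd
        · left
          exact Int.natCast_dvd.1 (hd.trans (dvd_prod_of_mem _ (mem_univ i₀)))
        · rcases (Nat.prime_iff_prime_int.1 hp).dvd_or_dvd hd with h3 | h3
          · right
            exact_mod_cast h3
          · left
            exact Int.natCast_dvd.1 (h3.trans (dvd_prod_of_mem _ (mem_univ i)))
  have hr := two_le_rd hn hx
  have hr2 : (2 : ℝ) ≤ rd x := by exact_mod_cast hr
  have h3 : (rd (dbl x i₀) : ℝ) ≤ (rd x : ℝ) ^ 2 := by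
    have : (rd (dbl x i₀) : ℝ) ≤ (rd x : ℝ) * 2 := by exact_mod_cast h2
    nlinarith
  have h4 : (1 : ℝ) ≤ rd (dbl x i₀) := by exact_mod_cast rd_pos (dbl x i₀)
  have h5 : (|x j| : ℝ) ≤ (|dbl x i₀ j.succ| : ℝ) := by
    simp only [dbl, Fin.cons_succ]
    split_ifs with hj
    · rw [hj]
    · push_cast
      rw [abs_mul, abs_two]
      have := abs_nonneg (x j : ℝ)
      linarith
  calc (|x j| : ℝ) ≤ (|dbl x i₀ j.succ| : ℝ) := h5
    _ ≤ (rd (dbl x i₀) : ℝ) ^ M := h1
    _ ≤ (rd (dbl x i₀) : ℝ) ^ (max M 0) := Real.rpow_le_rpow_of_exponent_le h4 (le_max_left _ _)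
    _ ≤ ((rd x : ℝ) ^ 2) ^ (max M 0) := Real.rpow_le_rpow (by linarith) h3 (le_max_right _ _)
    _ = (rd x : ℝ) ^ (2 * max M 0) := by
        rw [← Real.rpow_natCast, ← Real.rpow_mul (by linarith)]
        norm_num

end Pool.Agent.Q39.NT
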