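import Mathlib

set_option autoImplicit false

/-!
# `x ^ m + y ^ m` in terms of `x y` and `x + y`, and the linear relations between the terms
-/

namespace Pool.Agent.Q39.NT

open Finset Polynomial

/-- the absolute values of the coefficients -/
def w : ℕ → ℕ → ℕ
  | 0, 0 => 2
  | 0, _ + 1 => 0
  | 1, 0 => 1
  | 1, _ + 1 => 0
  | n + 2, 0 => w (n + 1) 0
  | n + 2, j + 1 => w (n + 1) (j + 1) + w n j

lemma w_zero (n : ℕ) (hn : 1 ≤ n) : w n 0 = 1 := by
  induction n with
  | zero => omega
  | succ n ih =>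
    cases n with
    | zero => simp [w]
    | succ n => simpa [w] using ih (by omega)

lemma w_eq_zero (n j : ℕ) (h : n < 2 * j) : w n j = 0 := by
  induction n using Nat.strong_induction_on generalizing j with
  | _ n ih =>
    match n, j, h with
    | 0, j + 1, _ => simp [w]
    | 1, j + 1, _ => simp [w]
    | n + 2, 0, h => omega
    | n + 2, j + 1, h =>
      rw [w, ih (n + 1) (by omega) (j + 1) (by omega), ih n (by omega) j (by omega)]

lemma w_pos (n j : ℕ) (h : 2 * j ≤ n) : 0 < w n j := by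
  induction n using Nat.strong_induction_on generalizing j with
  | _ n ih =>
    match n, j, h with
    | 0, 0, _ => simp [w]
    | 1, 0, _ => simp [w]
    | n + 2, 0, h => rw [w]; exact ih (n + 1) (by omega) 0 (by omega)
    | n + 2, j + 1, h =>
      rw [w]
      have := ih n (by omega) j (by omega)
      omega

lemma powsum {R : Type*} [CommRing R] (x y : R) (n : ℕ) : ∀ N : ℕ, n < 2 * N →
    x ^ n + y ^ n = ∑ j ∈ range N, (-1) ^ j * (w n j : R) * (x * y) ^ j * (x + y) ^ (n - 2 * j) := by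
  induction n using Nat.strong_induction_on with
  | _ n ih =>
    intro N hN
    match n, N, hN with
    | 0, N + 1, hN =>
      rw [sum_range_succ', sum_eq_zero]
      · simp [w]; norm_num
      · intro j _
        simp [w]
    | 1, N + 1, hN =>
      rw [sum_range_succ', sum_eq_zero]
      · simp [w]
      · intro j _
        simp [w]
    | n + 2, N + 1, hN =>
      have h1 := ih (n + 1) (by omega) (N + 1) (by omega)
      have h2 := ih n (by omega) N (by omega)
      have h3 : x ^ (n + 2) + y ^ (n + 2) =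
          (x + y) * (x ^ (n + 1) + y ^ (n + 1)) - x * y * (x ^ n + y ^ n) := by ring
      rw [h3, h1, h2, sum_range_succ' _ N, sum_range_succ' _ N, mul_add, mul_sum, mul_sum,
        add_sub_right_comm, ← sum_sub_distrib]
      congr 1
      · refine sum_congr rfl fun j _ => ?_
        rcases Nat.lt_or_ge (n + 1) (2 * (j + 1)) with h | h
        · rw [w_eq_zero (n + 1) (j + 1) h]
          simp only [w, w_eq_zero (n + 1) (j + 1) h, zero_add]
          have e1 : n + 2 - 2 * (j + 1) = n - 2 * j := by omega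
          rw [e1]
          push_cast
          ring
        · have e1 : n + 2 - 2 * (j + 1) = n + 1 - 2 * (j + 1) + 1 := by omega
          have e2 : n - 2 * j = n + 1 - 2 * (j + 1) + 1 := by omega
          simp only [w]
          rw [e1, e2]
          push_cast
          ring
      · simp only [w, pow_zero, mul_zero, Nat.sub_zero]
        ring

/-- the terms of the relation, divided by `(x + y) ^ m`, as polynomials in `X = x / (x + y)` -/
noncomputable def term (k : ℕ) : Fin (k + 3) → ℚ[X] :=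
  Fin.cons (X ^ (2 * k + 1)) (Fin.cons ((1 - X) ^ (2 * k + 1))
    (fun j : Fin (k + 1) => -((-1) ^ (j : ℕ) * C (w (2 * k + 1) j : ℚ) * (X * (1 - X)) ^ (j : ℕ))))

lemma powsum_poly (k : ℕ) : (X : ℚ[X]) ^ (2 * k + 1) + (1 - X) ^ (2 * k + 1) =
    ∑ j : Fin (k + 1), (-1) ^ (j : ℕ) * C (w (2 * k + 1) j : ℚ) * (X * (1 - X)) ^ (j : ℕ) := by
  have h := powsum (X : ℚ[X]) (1 - X) (2 * k + 1) (k + 1) (by omega)
  rw [h, ← Fin.sum_univ_eq_sum_range
    (fun j => (-1 : ℚ[X]) ^ j * (w (2 * k + 1) j : ℚ[X]) * (X * (1 - X)) ^ j *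
      (X + (1 - X)) ^ (2 * k + 1 - 2 * j))]
  refine sum_congr rfl fun j _ => ?_
  simp

/-- the only linear relations between the terms are the multiples of the sum -/
lemma relation (k : ℕ) (l : Fin (k + 3) → ℚ) (h : ∑ i, l i • term k i = 0) : ∀ i, l i = l 0 := by
  have hs : ∀ l : Fin (k + 3) → ℚ, ∑ i, l i • term k i = l 0 • (X : ℚ[X]) ^ (2 * k + 1) +
      (l 1 • (1 - X) ^ (2 * k + 1) + ∑ j : Fin (k + 1), l j.succ.succ •
        -((-1) ^ (j : ℕ) * C (w (2 * k + 1) j : ℚ) * (X * (1 - X)) ^ (j : ℕ))) := by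
    intro l
    rw [Fin.sum_univ_succ, Fin.sum_univ_succ]
    simp only [term, Fin.cons_zero, Fin.cons_succ]
    rfl
  rw [hs l] at h
  -- exchange `X` and `1 - X`
  have h1 := congrArg (fun p : ℚ[X] => p.comp (1 - X)) h
  simp only [add_comp, zero_comp, smul_comp, pow_comp, X_comp, sub_comp, one_comp, neg_comp,
    Polynomial.sum_comp, mul_comp, C_comp] at h1
  have e1 : (1 : ℚ[X]) - (1 - X) = X := by ring
  rw [e1] at h1
  have e2 : ∀ j : Fin (k + 1), l j.succ.succ • -((-1 : ℚ[X]) ^ (j : ℕ) *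
      C (w (2 * k + 1) j : ℚ) * ((1 - X) * X) ^ (j : ℕ)) = l j.succ.succ • -((-1) ^ (j : ℕ) *
      C (w (2 * k + 1) j : ℚ) * (X * (1 - X)) ^ (j : ℕ)) := by
    intro j
    rw [mul_comm (1 - X) X]
  rw [sum_congr rfl fun j _ => e2 j] at h1
  have h2 : (l 0 - l 1) • ((X : ℚ[X]) ^ (2 * k + 1) - (1 - X) ^ (2 * k + 1)) = 0 := by
    have h3 := congrArg₂ (· - ·) h h1
    simp only [sub_self] at h3
    rw [← h3, sub_smul, smul_sub, smul_sub]
    ring
  have h3 : l 0 = l 1 := by
    have h4 := congrArg (Polynomial.eval 1) h2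
    simp only [eval_smul, eval_sub, eval_pow, eval_X, eval_one, one_pow, sub_self, eval_zero,
      smul_eq_mul] at h4
    rw [zero_pow (by omega)] at h4
    linarith
  -- now the powers of `X (1 - X)`
  have h4 : ∑ j : Fin (k + 1), ((l 0 - l j.succ.succ) * ((-1) ^ (j : ℕ) * (w (2 * k + 1) j : ℚ))) •
      ((X : ℚ[X]) * (1 - X)) ^ (j : ℕ) = 0 := by
    rw [← h, ← h3, ← add_assoc, ← smul_add, powsum_poly, smul_sum, ← sum_add_distrib]
    refine sum_congr rfl fun j _ => ?_
    rw [smul_eq_C_mul, smul_eq_C_mul, smul_eq_C_mul, C_mul, C_mul, C_sub, C_pow, C_neg, C_1]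
    ring
  set g : ℚ[X] := ∑ j : Fin (k + 1), C ((l 0 - l j.succ.succ) *
    ((-1) ^ (j : ℕ) * (w (2 * k + 1) j : ℚ))) * X ^ (j : ℕ) with hg
  have h5 : g.comp (X * (1 - X)) = 0 := by
    rw [hg, Polynomial.sum_comp, ← h4]
    refine sum_congr rfl fun j _ => ?_
    rw [mul_comp, C_comp, pow_comp, X_comp, smul_eq_C_mul]
  have h6 : g = 0 := by
    rw [comp_eq_zero_iff] at h5
    rcases h5 with h5 | ⟨-, h5⟩
    · exact h5
    · exfalso
      have h7 := congrArg (fun p : ℚ[X] => p.coeff 2) h5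
      have h8 : (X : ℚ[X]) * (1 - X) = X - X ^ 2 := by ring
      simp only [h8, coeff_sub, coeff_X, coeff_X_pow, coeff_C] at h7
      norm_num at h7
  intro i
  refine Fin.cases rfl (fun i => Fin.cases h3.symm (fun j => ?_) i) i
  have h7 := congrArg (fun p : ℚ[X] => p.coeff (j : ℕ)) h6
  simp only [hg, finsetSum_coeff, coeff_C_mul, coeff_X_pow, coeff_zero] at h7
  rw [sum_eq_single j] at h7
  · have hw : (w (2 * k + 1) j : ℚ) ≠ 0 := by
      have := w_pos (2 * k + 1) j (by have := j.2; omega)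
      exact_mod_cast this.ne'
    have h8 : ((-1 : ℚ)) ^ (j : ℕ) ≠ 0 := pow_ne_zero _ (by norm_num)
    simp only [if_true, mul_one] at h7
    rcases mul_eq_zero.1 h7 with h9 | h9
    · linarith
    · exact absurd h9 (mul_ne_zero h8 hw)
  · intro b _ hb
    rw [if_neg, mul_zero]
    intro h9
    exact hb (Fin.ext h9.symm)
  · intro h9
    exact absurd (mem_univ _) h9

end Pool.Agent.Q39.NT
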