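import Pool.Agent.Q39.NT.Adm
import Pool.Agent.TH871.L1.Const

set_option autoImplicit false

/-!
# Records for the `n`-term abc inequality
-/

namespace Pool.Agent.Q39.NT

open Finset Polynomial Filter

/-- the tuple `a ^ m, b ^ m, ∓ w m j (a b) ^ j (a + b) ^ (m - 2 j)`, `m = 2 k + 1` -/
def tup (k : ℕ) (a b : ℤ) : Fin (k + 3) → ℤ :=
  Fin.cons (a ^ (2 * k + 1)) (Fin.cons (b ^ (2 * k + 1)) (fun j : Fin (k + 1) =>
    -((-1) ^ (j : ℕ) * (w (2 * k + 1) j : ℤ) * (a * b) ^ (j : ℕ) *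
      (a + b) ^ (2 * k + 1 - 2 * (j : ℕ)))))

lemma tup_sum (k : ℕ) (a b : ℤ) : ∑ i, tup k a b i = 0 := by
  rw [Fin.sum_univ_succ, Fin.sum_univ_succ]
  simp only [tup, Fin.cons_zero, Fin.cons_succ]
  rw [sum_neg_distrib, ← add_assoc, powsum a b (2 * k + 1) (k + 1) (by omega),
    ← Fin.sum_univ_eq_sum_range (fun j => (-1 : ℤ) ^ j * (w (2 * k + 1) j : ℤ) * (a * b) ^ j *
      (a + b) ^ (2 * k + 1 - 2 * j))]
  ring

lemma tup_eval (k : ℕ) (a b : ℤ) (hc : ((a : ℚ) + b) ≠ 0) (i : Fin (k + 3)) :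
    ((tup k a b i : ℤ) : ℚ) = ((a : ℚ) + b) ^ (2 * k + 1) *
      (term k i).eval ((a : ℚ) / (a + b)) := by
  have h1 : (1 : ℚ) - (a : ℚ) / (a + b) = b / (a + b) := by field_simp; ring
  refine Fin.cases ?_ (fun i => Fin.cases ?_ (fun j => ?_) i) i
  · simp only [tup, term, Fin.cons_zero, eval_pow, eval_X]
    push_cast
    rw [div_pow]
    field_simp
  · simp only [tup, term, Fin.cons_zero, Fin.cons_succ, eval_pow, eval_sub, eval_one, eval_X]
    push_cast
    rw [h1, div_pow]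
    field_simp
  · simp only [tup, term, Fin.cons_succ, eval_neg, eval_mul, eval_pow, eval_sub, eval_one, eval_X,
      eval_C]
    push_cast
    rw [h1]
    have h2 : ((a : ℚ) + b) ^ (2 * k + 1) =
        ((a : ℚ) + b) ^ (2 * k + 1 - 2 * (j : ℕ)) * (((a : ℚ) + b) ^ 2) ^ (j : ℕ) := by
      rw [← pow_mul, ← pow_add]
      congr 1
      have := j.2
      omega
    have h3 : (a : ℚ) / (a + b) * (b / (a + b)) = a * b / ((a : ℚ) + b) ^ 2 := by
      field_simp
    rw [h3, h2, div_pow]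
    field_simp

/-- the subsums are not zero as polynomials -/
lemma term_ne (k : ℕ) (I : Finset (Fin (k + 3))) (hI : I.Nonempty) (hI2 : I ≠ univ) :
    ∑ i ∈ I, term k i ≠ 0 := by
  classical
  intro h
  have h1 := relation k (fun i => if i ∈ I then 1 else 0) (by
    rw [← h]
    simp only [ite_smul, one_smul, zero_smul]
    rw [sum_ite_mem, univ_inter])
  obtain ⟨i, hi⟩ := hI
  have h2 := h1 i
  rw [if_pos hi] at h2
  apply hI2
  ext j
  refine ⟨fun _ => mem_univ _, fun _ => ?_⟩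
  by_contra hj
  have h3 := h1 j
  rw [if_neg hj, ← h2] at h3
  norm_num at h3

lemma tup_adm (k : ℕ) : ∃ B : ℕ, ∀ a b : ℕ, 0 < a → 0 < b → Nat.Coprime a b → B < a + b →
    Adm (tup k a b) := by
  classical
  have hfin : (⋃ I : Finset (Fin (k + 3)), {t : ℚ | I.Nonempty ∧ I ≠ univ ∧
      (∑ i ∈ I, term k i).eval t = 0}).Finite := by
    refine Set.finite_iUnion fun I => ?_
    by_cases h : I.Nonempty ∧ I ≠ univ
    · refine (Multiset.finite_toSet (∑ i ∈ I, term k i).roots).subset ?_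
      rintro t ⟨h1, h2, h3⟩
      exact (mem_roots (term_ne k I h1 h2)).2 h3
    · convert Set.finite_empty
      rw [Set.eq_empty_iff_forall_notMem]
      rintro t ⟨h1, h2, -⟩
      exact h ⟨h1, h2⟩
  obtain ⟨B, hB⟩ := (hfin.image fun t : ℚ => t.den).bddAbove
  refine ⟨B, fun a b ha hb hab hc => ⟨gcd_one fun d hd => ?_, tup_sum k a b, fun I h1 h2 h3 => ?_⟩⟩
  · have h0 : d ∣ (a : ℤ) ^ (2 * k + 1) := by simpa [tup] using hd 0
    have h1 : d ∣ (b : ℤ) ^ (2 * k + 1) := by
      have := hd (Fin.succ 0)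
      simpa only [tup, Fin.cons_succ, Fin.cons_zero] using this
    have h2 : IsCoprime ((a : ℤ) ^ (2 * k + 1)) ((b : ℤ) ^ (2 * k + 1)) :=
      (Nat.isCoprime_iff_coprime.2 hab).pow
    exact h2.isUnit_of_dvd' h0 h1
  · have hc0 : ((a : ℤ) : ℚ) + ((b : ℤ) : ℚ) ≠ 0 := by
      have : (0 : ℚ) < a := by exact_mod_cast ha
      have : (0 : ℚ) < b := by exact_mod_cast hb
      push_cast
      positivity
    have h4 : ∑ i ∈ I, ((tup k a b i : ℤ) : ℚ) = 0 := by exact_mod_cast h3
    rw [sum_congr rfl fun i _ => tup_eval k a b hc0 i, ← mul_sum, ← eval_finsetSum] at h4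
    rcases mul_eq_zero.1 h4 with h5 | h5
    · exact pow_ne_zero _ hc0 h5
    · have h6 := hB (Set.mem_image_of_mem _ (Set.mem_iUnion.2 ⟨I, h1, h2, h5⟩))
      have h7 : (((a : ℤ) : ℚ) / (((a + b : ℕ) : ℤ) : ℚ)).den = a + b := by
        have := Rat.den_div_eq_of_coprime (a := (a : ℤ)) (b := ((a + b : ℕ) : ℤ))
          (by positivity) (by
            rw [Int.natAbs_natCast, Int.natAbs_natCast]
            exact (Nat.coprime_self_add_right (m := a) (n := b)).2 hab)
        exact_mod_cast this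
      have h8 : ((a : ℤ) : ℚ) + ((b : ℤ) : ℚ) = (((a + b : ℕ) : ℤ) : ℚ) := by push_cast; ring
      rw [h8, h7] at h6
      omega

/-- the product of the coefficients -/
def E (k : ℕ) : ℕ := ∏ j ∈ range (k + 1), w (2 * k + 1) j

lemma E_ne (k : ℕ) : E k ≠ 0 := by
  refine prod_ne_zero_iff.2 fun j hj => ?_
  rw [mem_range] at hj
  exact (w_pos _ _ (by omega)).ne'

lemma tup_rd (k a b : ℕ) (ha : 0 < a) (hb : 0 < b) :
    rd (tup k a b) ≤ (∏ p ∈ (a * b * (a + b)).primeFactors, p) * E k := by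
  refine rd_le _ (by positivity) (E_ne k) fun i p hp => ?_
  have hp' := Nat.prime_iff_prime_int.1 hp
  refine Fin.cases ?_ (fun i => Fin.cases ?_ (fun j => ?_) i) i
  · intro h
    simp only [tup, Fin.cons_zero] at h
    have h1 := hp'.dvd_of_dvd_pow h
    left
    have h2 : p ∣ a := by exact_mod_cast h1
    exact (h2.mul_right b).mul_right _
  · intro h
    simp only [tup, Fin.cons_zero, Fin.cons_succ] at h
    have h1 := hp'.dvd_of_dvd_pow h
    left
    have h2 : p ∣ b := by exact_mod_cast h1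
    exact (h2.mul_left a).mul_right _
  · intro h
    simp only [tup, Fin.cons_succ, dvd_neg] at h
    rcases hp'.dvd_or_dvd h with h | h
    · rcases hp'.dvd_or_dvd h with h | h
      · rcases hp'.dvd_or_dvd h with h | h
        · exfalso
          have h1 := isUnit_of_dvd_unit h ((isUnit_neg_one (α := ℤ)).pow (j : ℕ))
          exact hp'.not_isUnit h1
        · right
          have h1 : p ∣ w (2 * k + 1) j := by exact_mod_cast h
          exact h1.trans (dvd_prod_of_mem _ (mem_range.2 j.2))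
      · left
        have h1 := hp'.dvd_of_dvd_pow h
        have h2 : p ∣ a * b := by exact_mod_cast h1
        exact h2.mul_right _
    · left
      have h1 := hp'.dvd_of_dvd_pow h
      have h2 : p ∣ a + b := by exact_mod_cast h1
      exact h2.mul_left _

lemma tup_two (k : ℕ) (a b : ℤ) :
    tup k a b (Fin.succ (Fin.succ 0)) = -(a + b) ^ (2 * k + 1) := by
  simp only [tup, Fin.cons_succ]
  rw [Fin.val_zero, w_zero _ (by omega)]
  simp

/-- the records of abc triples -/
lemma triples {κ : ℝ} (h0 : 0 ≤ κ) (h1 : κ ≤ 6.84) (X : ℝ) : ∃ a b : ℕ, 0 < a ∧ 0 < b ∧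
    Nat.Coprime a b ∧ X < Real.log ((a + b : ℕ) : ℝ) ∧
    κ * √(Real.log ((a + b : ℕ) : ℝ)) / Real.log (Real.log ((a + b : ℕ) : ℝ)) <
      Real.log ((a + b : ℕ) : ℝ) -
        Real.log ((∏ p ∈ (a * b * (a + b)).primeFactors, p : ℕ) : ℝ) := by
  have hK : κ ≤ 171 / 25 := by norm_num at h1 ⊢; linarith
  obtain ⟨a, b, c, ⟨ha, hb, hc, habc, hab, hac, hbc⟩, hX, hlt⟩ :=
    Pool.Agent.TH871.L1.good_triples h0 hK X
  refine ⟨a, b, ha, hb, hab, ?_, ?_⟩
  · rw [habc]; exact hX
  · rw [habc]; exact hlt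

theorem records (k : ℕ) {κ : ℝ} (h0 : 0 ≤ κ) (h1 : κ < 6.84 * √((2 * k + 1 : ℕ) : ℝ)) (X : ℝ) :
    ∃ x : Fin (k + 3) → ℤ, Adm x ∧ ∃ j, X < (|x j| : ℝ) ∧
      (rd x : ℝ) ^ (2 * k + 1) *
        Real.exp (κ * √(Real.log |x j|) / Real.log (Real.log |x j|)) < (|x j| : ℝ) := by
  obtain ⟨B, hB⟩ := tup_adm k
  set m : ℕ := 2 * k + 1 with hm
  have hm1 : (1 : ℝ) ≤ m := by
    have : 1 ≤ m := by omega
    exact_mod_cast this
  have hm0 : (0 : ℝ) < m := by linarith
  have hsm : √(m : ℝ) * √(m : ℝ) = m := Real.mul_self_sqrt hm0.le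
  have hsm0 : 0 < √(m : ℝ) := Real.sqrt_pos.2 hm0
  set δ : ℝ := m * 6.84 - κ * √(m : ℝ) with hδ
  have hδ0 : 0 < δ := by
    rw [hδ]
    nlinarith
  -- the analytic condition
  have hev : ∀ᶠ L : ℝ in atTop, m * Real.log (E k) * Real.log L ≤ δ * √L := by
    have h2 : (fun L : ℝ => m * Real.log (E k) * Real.log L) =o[atTop] fun L : ℝ => √L := by
      have h2 := isLittleO_log_rpow_atTop (show (0 : ℝ) < 1 / 2 by norm_num)
      have h3 : (fun x : ℝ => x ^ (1 / 2 : ℝ)) = fun L : ℝ => √L := by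
        funext x; rw [Real.sqrt_eq_rpow]
      rw [h3] at h2
      exact h2.const_mul_left _
    have h3 := h2.bound hδ0
    filter_upwards [h3, eventually_ge_atTop 0] with L hL hL0
    calc _ ≤ ‖m * Real.log (E k) * Real.log L‖ := Real.le_norm_self _
      _ ≤ δ * ‖√L‖ := hL
      _ = δ * √L := by rw [Real.norm_of_nonneg (Real.sqrt_nonneg _)]
  obtain ⟨L₀, hL₀⟩ := eventually_atTop.1 hev
  obtain ⟨a, b, ha, hb, hab, hX, hlt⟩ := triples (κ := 6.84) (by norm_num) le_rfl
    (max (max L₀ (Real.exp 1)) (max X (Real.log (B + 1))))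
  set c : ℕ := a + b with hc
  have hc0 : (0 : ℝ) < c := by
    have : 0 < c := by omega
    exact_mod_cast this
  set L : ℝ := Real.log c with hL
  have hL1 : L₀ ≤ L := ((le_max_left _ _).trans (le_max_left _ _)).trans hX.le
  have hL2 : Real.exp 1 < L := lt_of_le_of_lt ((le_max_right _ _).trans (le_max_left _ _)) hX
  have hL3 : X < L := lt_of_le_of_lt ((le_max_left _ _).trans (le_max_right _ _)) hX
  have hL4 : Real.log (B + 1) < L :=
    lt_of_le_of_lt ((le_max_right _ _).trans (le_max_right _ _)) hX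
  have he1 : (1 : ℝ) < Real.exp 1 := Real.one_lt_exp_iff.mpr one_pos
  have hLpos : 0 < L := by linarith
  have hLL : 0 < Real.log L := Real.log_pos (by linarith)
  have hBc : B < a + b := by
    have h2 : ((B : ℝ) + 1) < c := (Real.log_lt_log_iff (by positivity) hc0).1 hL4
    have h3 : ((B + 1 : ℕ) : ℝ) < (c : ℝ) := by push_cast; exact h2
    have h4 : B + 1 < c := by exact_mod_cast h3
    omega
  refine ⟨tup k a b, hB a b ha hb hab hBc, Fin.succ (Fin.succ 0), ?_⟩
  have hxj : (|tup k a b (Fin.succ (Fin.succ 0))| : ℝ) = (c : ℝ) ^ m := by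
    rw [tup_two]
    push_cast
    rw [abs_neg, abs_of_nonneg (by positivity), hc]
    push_cast
    rfl
  have hxj' : ((|tup k a b (Fin.succ (Fin.succ 0))| : ℤ) : ℝ) = (c : ℝ) ^ m := by
    rw [← hxj]; push_cast; rfl
  rw [hxj]
  have hXc : X < (c : ℝ) := by
    have := Real.log_le_sub_one_of_pos hc0
    rw [← hL] at this
    linarith
  have hc1 : (1 : ℝ) ≤ c := by
    have : 1 ≤ c := by omega
    exact_mod_cast this
  refine ⟨lt_of_lt_of_le hXc (le_self_pow₀ hc1 (by omega)), ?_⟩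
  set R : ℕ := ∏ p ∈ (a * b * (a + b)).primeFactors, p with hR
  have hR0 : (0 : ℝ) < R := by
    have : 0 < R := prod_pos fun p hp => (Nat.prime_of_mem_primeFactors hp).pos
    exact_mod_cast this
  have hE0 : (0 : ℝ) < E k := by
    have := Nat.pos_of_ne_zero (E_ne k)
    exact_mod_cast this
  have hrd : (rd (tup k a b) : ℝ) ≤ R * E k := by
    have := tup_rd k a b ha hb
    exact_mod_cast this
  have hrd0 : (0 : ℝ) ≤ (rd (tup k a b) : ℝ) := Nat.cast_nonneg _
  have hlogm : Real.log ((c : ℝ) ^ m) = m * L := by rw [Real.log_pow]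
  rw [hlogm]
  have hLm : L ≤ m * L := by nlinarith
  have hlogmL : Real.log L ≤ Real.log (m * L) := Real.log_le_log hLpos hLm
  have h5 : κ * √(m * L) / Real.log (m * L) ≤ κ * √(m : ℝ) * √L / Real.log L := by
    rw [Real.sqrt_mul hm0.le, ← mul_assoc]
    gcongr
  have hmain : m * Real.log R + m * Real.log (E k) + κ * √(m : ℝ) * √L / Real.log L < m * L := by
    have h6 : m * Real.log (E k) ≤ δ * √L / Real.log L := by
      rw [le_div_iff₀ hLL]
      exact hL₀ L hL1
    have h7 : m * (6.84 * √L / Real.log L) < m * (L - Real.log R) := by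
      have := hlt
      gcongr
    have h8 : δ * √L / Real.log L + κ * √(m : ℝ) * √L / Real.log L =
        m * (6.84 * √L / Real.log L) := by
      rw [hδ]; field_simp; ring
    nlinarith
  calc (rd (tup k a b) : ℝ) ^ m * Real.exp (κ * √(m * L) / Real.log (m * L))
      ≤ (R * E k) ^ m * Real.exp (κ * √(m : ℝ) * √L / Real.log L) := by gcongr
    _ = Real.exp (m * Real.log R + m * Real.log (E k) + κ * √(m : ℝ) * √L / Real.log L) := by
        rw [Real.exp_add, Real.exp_add, mul_comm (m : ℝ) (Real.log R),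
          mul_comm (m : ℝ) (Real.log (E k)), ← Real.rpow_def_of_pos hR0,
          ← Real.rpow_def_of_pos hE0, Real.rpow_natCast, Real.rpow_natCast, mul_pow]
    _ < Real.exp (m * L) := Real.exp_lt_exp.2 hmain
    _ = (c : ℝ) ^ m := by rw [← hlogm, Real.exp_log (by positivity)]

end Pool.Agent.Q39.NT
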